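import Pool.Agent.Lib.MP_b5021c_nt.SF.H38.NbzA
import Pool.Agent.Lib.MP_b5021c_nt.SF.H74.Dic
import Pool.Agent.Lib.MP_b5021c_nt.B.H09.E2Tpm

/-!
# Board b5, chapter SF, row SF_NBZ: all factors are small
-/

namespace Pool.Agent.B5.H38n

open scoped LaurentPolynomial Topology
open Polynomial
open Pool.Agent.B5

theorem ci_congr {g1 g2 : ℂ → ℝ} (h : CircleIntegrable g1 0 1)
    (he : ∀ z : Circle, g1 (z : ℂ) = g2 (z : ℂ)) : CircleIntegrable g2 0 1 := by
  have h1 : (fun θ => g2 (circleMap 0 1 θ)) = fun θ => g1 (circleMap 0 1 θ) := by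
    funext θ
    have h2 : circleMap 0 1 θ = (Circle.exp θ : ℂ) := by
      rw [Circle.coe_exp, circleMap_zero, Complex.ofReal_one, one_mul]
    rw [h2, he]
  unfold CircleIntegrable at h ⊢
  rw [h1]
  exact h

theorem ci_congrC {g1 g2 : ℂ → ℂ} (h : CircleIntegrable g1 0 1)
    (he : ∀ z : Circle, g1 (z : ℂ) = g2 (z : ℂ)) : CircleIntegrable g2 0 1 := by
  have h1 : (fun θ => g2 (circleMap 0 1 θ)) = fun θ => g1 (circleMap 0 1 θ) := by
    funext θ
    have h2 : circleMap 0 1 θ = (Circle.exp θ : ℂ) := by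
      rw [Circle.coe_exp, circleMap_zero, Complex.ofReal_one, one_mul]
    rw [h2, he]
  unfold CircleIntegrable at h ⊢
  rw [h1]
  exact h

/-- The terminal pair of a closed element with small factors only. -/
theorem tp_data (hDus : DusS) (hTpf : TpfS) {P L : Type} [Fintype P] [DecidableEq P]
    [AddCommGroup L] [Module.Free ℤ L] [Module.Finite ℤ L] {phi : L →+ (P → ℤ)} {D : AO ℤ L}
    {S : L} {i0 : P} {eta : (RO ℤ)ˣ} {h : co phi i0 S = 1} {c : RO ℤ} {n : ℕ}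
    {G : Fin n → AO ℤ (Ker (co phi i0))} (hF : FD phi D S i0 eta h c n G)
    (hb : ∀ i, ¬ 1 < M ((G i).coeff 0)) :
    ∃ (b : Fin n → Ker (co phi i0)) (f : Fin n → (Ker (co phi i0) →+ ℤ)) (e : Fin n → (RO ℤ)ˣ)
      (lam : Ker (co phi i0) →+ ℤ),
      TPair 1 lam (res (Ker (co phi i0)) D) (D.coeff 0 + (eta : RO ℤ) * D.coeff S) n b f e ∧
        Module.finrank ℤ L ≤ 1 + rk (supp (res (Ker (co phi i0)) D) ∪ Set.range b) := by
  obtain ⟨b, f, e, hu, hG, hd⟩ := hDus ℤ P L phi D S i0 eta h c n G hF hb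
  obtain ⟨lam, h1, h2⟩ := hTpf ℤ P L phi D S i0 eta h c n G hF b f e hu hG hd
  exact ⟨b, f, e, lam, h1, h2⟩

/-- Cases (1) and (2): the weight `|T'| |z - a'|²` is integral. -/
theorem case_w (hEv : EvRS) (hTpw : TpwS) (hCzm : CzmS) (hCzi : CziS) (hPmf : PmfS)
    (hSnr : Nr.SnrS) {L : Type} [AddCommGroup L] [Module.Free ℤ L] [Module.Finite ℤ L]
    {lam : L →+ ℤ} {B : AO ℤ L} {V0 : RO ℤ} {n : ℕ} {b : Fin n → L} {fk : Fin n → (L →+ ℤ)}
    {e : Fin n → (RO ℤ)ˣ} (hT : TPair 1 lam B V0 n b fk e) {m : ℤ} {q f : ℤ[X]}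
    (hB : B.coeff 0 = LaurentPolynomial.T m * toLaurent q)
    (hV : V0 = LaurentPolynomial.T m * toLaurent (q + X * f))
    {T T' : ℝ} {s W : ℂ[X]} (hL : LDz q f) (hC : C1D q f T' s W) (hT2 : 2 ≤ |T|)
    (hq : (cpz q).eval ((T⁻¹ : ℝ) : ℂ) = 0) (k sg : ℤ) (hk : (k : ℝ) = |T'| + |T'⁻¹|)
    (hk2 : 2 ≤ k) (hsg : sg = 1 ∨ sg = -1) (hsT : 0 < (sg : ℝ) * T')
    (hdiv : ∀ p : RO ℤ, CircleIntegrable
      (fun z => evL z (wgt k sg * p) / evL z V0) 0 1 → V0 ∣ wgt k sg * p) :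
    (rk (supp B ∪ Set.range b) : ℝ) ≤ 2 * |T| - (|T'| + |T'⁻¹|) := by
  obtain ⟨hEv1, -, -, -⟩ := hEv ℤ
  have hsa : |(sg : ℝ)| = 1 := by rcases hsg with h | h <;> subst h <;> simp
  have hval : ∀ z : Circle, (evR z (wgt k sg)).re =
      |T'| * ‖(z : ℂ) - ((T'⁻¹ : ℝ) : ℂ)‖ ^ 2 := by
    intro z
    rw [evR_wgt, Complex.ofReal_re, wt_val z T' sg hsa hsT, hk]
  have hnn := wgt_nn k sg hk2 hsg
  have hint : CircleIntegrable (fun z => (evL z (wgt k sg * B.coeff 0) / evL z V0).re) 0 1 := by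
    have h1 := (hCzi q f T' s W hL hC).1
    have h2 : CircleIntegrable (fun z => |T'| • (‖z - ((T'⁻¹ : ℝ) : ℂ)‖ ^ 2 *
      ((cpz q).eval z / (cpz (q + X * f)).eval z).re)) 0 1 := CircleIntegrable.const_fun_smul h1
    refine ci_congr h2 ?_
    intro z
    have hw : evR z (wgt k sg) = ((evR z (wgt k sg)).re : ℂ) := Complex.ext rfl (by
      rw [Complex.ofReal_im]; exact (hnn z).1)
    have hz0 : (z : ℂ) ^ m ≠ 0 := zpow_ne_zero _ (by
      intro h0
      have := Circle.norm_coe z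
      rw [h0, norm_zero] at this
      norm_num at this)
    simp only [smul_eq_mul]
    rw [hEv1, hEv1, map_mul, hB, hV, evR_Tp, evR_Tp, hw, hval, mul_div_assoc,
      mul_div_mul_left _ _ hz0, Complex.re_ofReal_mul]
    ring
  obtain ⟨Ti, hT0, hTn, hsum, hrk⟩ := hTpw L 1 lam B V0 (wgt k sg) n b fk e hT (wgt_ne k sg hsg)
    hnn (fun p p' _ hi => hdiv p hi) hint
  have hTi : 1 < |T| := by linarith
  have hTinv : |T⁻¹| ≤ 1 / 2 := by
    rw [abs_inv, inv_eq_one_div]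
    exact one_div_le_one_div_of_le (by norm_num) hT2
  have h1 := core hCzm hPmf hL hC hTi hq 0 (∑ i, (Ti i).coeff 0) (map_zero _)
    (rsh_sum Ti hTn) 0 (by
      intro z hv
      have hv0 : evR z V0 ≠ 0 := by
        rw [hV, evR_Tp]
        exact mul_ne_zero (zpow_ne_zero _ (by
          intro h0
          have := Circle.norm_coe z
          rw [h0, norm_zero] at this
          norm_num at this)) hv
      rw [zero_mul, add_zero, mass_eq hB hV hnn z hv (hsum z hv0), hval])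
  rw [zero_mul, add_zero] at h1
  have h2 := sum_le hEv1 hSnr Ti hT0 hTn T⁻¹ hTinv
  have h3 : (rk (supp B ∪ Set.range b) : ℝ) ≤ ((∑ i, (1 + rk (supp (Ti i))) : ℕ) : ℝ) := by
    exact_mod_cast hrk
  linarith

/-- Case (3): no weight in the terminal pair. -/
theorem case_one (hEv : EvRS) (hTpw : TpwS) (hCzm : CzmS) (hCzi : CziS) (hPmf : PmfS)
    (hSnr : Nr.SnrS) {L : Type} [AddCommGroup L] [Module.Free ℤ L] [Module.Finite ℤ L]
    {lam : L →+ ℤ} {B : AO ℤ L} {V0 : RO ℤ} {n : ℕ} {b : Fin n → L} {fk : Fin n → (L →+ ℤ)}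
    {e : Fin n → (RO ℤ)ˣ} (hT : TPair 1 lam B V0 n b fk e) {m : ℤ} {q f : ℤ[X]}
    (hB : B.coeff 0 = LaurentPolynomial.T m * toLaurent q)
    (hV : V0 = LaurentPolynomial.T m * toLaurent (q + X * f))
    {T T' : ℝ} {s W : ℂ[X]} (hL : LDz q f) (hC : C1D q f T' s W) (hT2 : 2 ≤ |T|)
    (hq : (cpz q).eval ((T⁻¹ : ℝ) : ℂ) = 0) (hT1 : 1 < |T'|) (sg : ℤ)
    (hsg : sg = 1 ∨ sg = -1) (hsT : 0 < (sg : ℝ) * T')
    (hdiv : ∀ p p' : RO ℤ, p * rsh V0 = rsh p' * V0 → CircleIntegrable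
      (fun z => evL z p / evL z V0) 0 1 → V0 ∣ p) :
    (rk (supp B ∪ Set.range b) : ℝ) ≤ 2 * |T| - (|T'| + |T'⁻¹|) := by
  obtain ⟨hEv1, -, -, -⟩ := hEv ℤ
  have hsa : |(sg : ℝ)| = 1 := by rcases hsg with h | h <;> subst h <;> simp
  have hnn := wgt_nn 2 sg le_rfl hsg
  have hn1 : NnR (1 : RO ℤ) := by
    intro z
    rw [map_one]
    simp
  have hX2 : 2 ≤ |T'| + |T'⁻¹| := by
    have h1 : 0 < |T'| := by linarith
    rw [abs_inv]
    have h2 : |T'| + |T'|⁻¹ - 2 = (|T'| - 1) ^ 2 / |T'| := by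
      field_simp
      ring
    have h3 : 0 ≤ (|T'| - 1) ^ 2 / |T'| := by positivity
    linarith
  have hint : CircleIntegrable (fun z => (evL z (1 * B.coeff 0) / evL z V0).re) 0 1 := by
    have h1 := (hCzi q f T' s W hL hC).2 hT1
    refine ci_congr h1 ?_
    intro z
    have hz0 : (z : ℂ) ^ m ≠ 0 := zpow_ne_zero _ (by
      intro h0
      have := Circle.norm_coe z
      rw [h0, norm_zero] at this
      norm_num at this)
    rw [hEv1, hEv1, one_mul, hB, hV, evR_Tp, evR_Tp, mul_div_mul_left _ _ hz0]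
  obtain ⟨Ti, hT0, hTn, hsum, hrk⟩ := hTpw L 1 lam B V0 1 n b fk e hT one_ne_zero
    hn1 (fun p p' h1 hi => by rw [one_mul] at hi ⊢; exact hdiv p p' h1 hi) hint
  have hTi : 1 < |T| := by linarith
  have hTinv : |T⁻¹| ≤ 1 / 2 := by
    rw [abs_inv, inv_eq_one_div]
    exact one_div_le_one_div_of_le (by norm_num) hT2
  -- the weighted masses
  obtain ⟨Ui, hUi⟩ : ∃ Ui : ∀ i, AO ℤ (Ker (fk i)), ∀ i, Ui i = cst (wgt 2 sg) * Ti i :=
    ⟨fun i => cst (wgt 2 sg) * Ti i, fun i => rfl⟩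
  have hw0 : wgt 2 sg ≠ 0 := wgt_ne 2 sg hsg
  have hUc : ∀ i a, (Ui i).coeff a = wgt 2 sg * (Ti i).coeff a := by
    intro i a
    rw [hUi, H71.cst_mul_coeff]
  have hU0 : ∀ i, Ui i ≠ 0 := by
    intro i h0
    apply hT0 i
    refine AddMonoidAlgebra.ext (Finsupp.ext fun a => ?_)
    have h1 := hUc i a
    rw [h0] at h1
    exact ((mul_eq_zero.mp h1.symm).resolve_left hw0).trans rfl
  have hUs : ∀ i, supp (Ui i) = supp (Ti i) := by
    intro i
    ext a
    change (Ui i).coeff a ≠ 0 ↔ (Ti i).coeff a ≠ 0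
    rw [hUc]
    exact ⟨fun h h0 => h (by rw [h0, mul_zero]), fun h => mul_ne_zero hw0 h⟩
  have hUn : ∀ i, Npos (Ui i) := by
    intro i
    refine ⟨?_, ?_⟩
    · rw [hUi, map_mul, (hTn i).1]
      congr 1
      rw [cst]
      simp [sharp, rsh_wgt]
    · intro z u
      rw [hUi, H09.tpm_ev_cst_mul, Complex.mul_re, (hnn z).1, zero_mul, sub_zero]
      exact mul_nonneg (hnn z).2 ((hTn i).2 z u)
  have hU1 : ∑ i, (Ui i).coeff 0 = wgt 2 sg * ∑ i, (Ti i).coeff 0 := by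
    rw [Finset.mul_sum]
    exact Finset.sum_congr rfl fun i _ => hUc i 0
  have h1 := core hCzm hPmf hL hC hTi hq (∑ i, (Ti i).coeff 0) (∑ i, (Ui i).coeff 0)
    (rsh_sum Ti hTn) (rsh_sum Ui hUn) (|T'| + |T'⁻¹| - 2) (by
      intro z hv
      have hv0 : evR z V0 ≠ 0 := by
        rw [hV, evR_Tp]
        exact mul_ne_zero (zpow_ne_zero _ (by
          intro h0
          have := Circle.norm_coe z
          rw [h0, norm_zero] at this
          norm_num at this)) hv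
      have h2 := mass_eq hB hV hn1 z hv (hsum z hv0)
      rw [map_one, Complex.one_re, one_mul] at h2
      have h3 : (evR z (∑ i, (Ui i).coeff 0)).re = (2 - 2 * sg * (z : ℂ).re) *
          (evR z (∑ i, (Ti i).coeff 0)).re := by
        rw [hU1, map_mul, evR_wgt, Complex.re_ofReal_mul]
        push_cast
        ring
      rw [h3, wt_val z T' sg hsa hsT, ← h2]
      refine le_of_eq ?_
      ring)
  have h2 := sum_le hEv1 hSnr Ui hU0 hUn T⁻¹ hTinv
  have h4 := sum_le hEv1 hSnr Ti hT0 hTn T⁻¹ hTinv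
  have h3 : (rk (supp B ∪ Set.range b) : ℝ) ≤ ((∑ i, (1 + rk (supp (Ui i))) : ℕ) : ℝ) := by
    have h5 : ∑ i, (1 + rk (supp (Ui i))) = ∑ i, (1 + rk (supp (Ti i))) :=
      Finset.sum_congr rfl fun i _ => by rw [hUs]
    rw [h5]
    exact_mod_cast hrk
  have h5 : (0 : ℝ) ≤ ((∑ i, (1 + rk (supp (Ti i))) : ℕ) : ℝ) := Nat.cast_nonneg _
  have h6 := mul_nonneg (sub_nonneg.mpr hX2) (h5.trans h4)
  linarith

/-- A real sign. -/
theorem exists_sg {T' : ℝ} (h : T' ≠ 0) : ∃ sg : ℤ, (sg = 1 ∨ sg = -1) ∧ 0 < (sg : ℝ) * T' := by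
  rcases lt_or_gt_of_ne h with h1 | h1
  · exact ⟨-1, Or.inr rfl, by push_cast; linarith⟩
  · exact ⟨1, Or.inl rfl, by push_cast; linarith⟩

theorem norm_emb (k : ℤ) (h : |k| = 1) : ‖(Coef.emb k : ℂ)‖ = 1 := by
  have h1 : (Coef.emb k : ℂ) = ((k : ℤ) : ℂ) := eq_intCast _ k
  rw [h1, Complex.norm_intCast, ← Int.cast_abs, h, Int.cast_one]

theorem lin_ne {T' : ℝ} {z : ℂ} (h : |T'| * ‖z‖ ≠ 1) : (1 : ℂ) - (T' : ℂ) * z ≠ 0 := by
  intro h1
  apply h
  have h2 : (1 : ℂ) = (T' : ℂ) * z := sub_eq_zero.mp h1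
  have h3 := congrArg norm h2
  rw [norm_one, norm_mul, Complex.norm_real, Real.norm_eq_abs] at h3
  exact h3.symm

/-- The three cases. -/
theorem nbz_main (hEv : EvRS) (hDvc : DvcS) (hDic : DicS) (hTpw : TpwS)
    (hCzm : CzmS) (hCzi : CziS) (hPmf : PmfS)
    (hSnr : Nr.SnrS) {L : Type} [AddCommGroup L] [Module.Free ℤ L] [Module.Finite ℤ L]
    {lam : L →+ ℤ} {B : AO ℤ L} {V0 : RO ℤ} {n : ℕ} {b : Fin n → L} {fk : Fin n → (L →+ ℤ)}
    {e : Fin n → (RO ℤ)ˣ} (hT : TPair 1 lam B V0 n b fk e) {m : ℤ} {q f : ℤ[X]}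
    (hB : B.coeff 0 = LaurentPolynomial.T m * toLaurent q)
    (hV : V0 = LaurentPolynomial.T m * toLaurent (q + X * f))
    {T T' : ℝ} {s W : ℂ[X]} (hL : LDz q f) (hC : C1D q f T' s W) (hT2 : 2 ≤ |T|)
    (hq : (cpz q).eval ((T⁻¹ : ℝ) : ℂ) = 0) :
    (rk (supp B ∪ Set.range b) : ℝ) ≤ 2 * |T| - (|T'| + |T'⁻¹|) := by
  obtain ⟨hEv1, -, -, -⟩ := hEv ℤ
  have hone := hC.one
  have hT'0 : T' ≠ 0 := abs_pos.mp (by linarith)
  obtain ⟨sg, hsg, hsT⟩ := exists_sg hT'0
  have hv0 : |(q + X * f).coeff 0| = 1 := by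
    rw [coeff_add, mul_coeff_zero, coeff_X_zero, zero_mul, add_zero]
    exact hL.q0
  rcases eq_or_lt_of_le hone with h1 | h1
  · -- case (1)
    have hCV : ClassV 1 V0 := by
      refine ⟨le_rfl, m, q + X * f, hV, norm_emb _ hv0, ?_⟩
      intro z hz
      change (cpz (q + X * f)).eval z ≠ 0
      rw [hC.v, eval_mul]
      refine mul_ne_zero ?_ (hC.zf z hz)
      rw [eval_sub, eval_one, eval_mul, eval_C, eval_X]
      apply lin_ne
      rw [← h1, one_mul]
      exact hz.ne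
    refine case_w hEv hTpw hCzm hCzi hPmf hSnr hT hB hV hL hC hT2 hq 2 sg ?_ le_rfl hsg hsT ?_
    · rw [abs_inv, ← h1]
      norm_num
    · intro p hp
      exact hDvc ℤ V0 _ hCV hp
  · rcases hDic (q + X * f) m T' s hv0 h1 hC.v hC.zf with ⟨h, hh, v1, hv1⟩ | h2
    · -- case (2)
      have hTT : (T' : ℂ) * (T'⁻¹ : ℝ) = 1 := by
        rw [← Complex.ofReal_mul, mul_inv_cancel₀ hT'0, Complex.ofReal_one]
      have hu : cpz (1 - C h * X + X ^ 2) =
          (1 - C (T' : ℂ) * X) * (1 - C ((T'⁻¹ : ℝ) : ℂ) * X) := by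
        have h3 : ((h : ℤ) : ℂ) = (T' : ℂ) + ((T'⁻¹ : ℝ) : ℂ) := by
          rw [← Complex.ofReal_add, ← hh]
          push_cast
          rfl
        unfold cpz
        rw [Polynomial.map_add, Polynomial.map_sub, Polynomial.map_one, Polynomial.map_mul,
          Polynomial.map_pow, Polynomial.map_X, Polynomial.map_C]
        have h4 : (Coef.emb h : ℂ) = (T' : ℂ) + ((T'⁻¹ : ℝ) : ℂ) := by
          rw [← h3]
          exact eq_intCast _ h
        rw [h4, C_add]
        have h5 : (C (T' : ℂ) * C ((T'⁻¹ : ℝ) : ℂ) : ℂ[X]) = 1 := by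
          rw [← C_mul, hTT, C_1]
        linear_combination (-X ^ 2) * h5
      have hlin0 : (1 - C (T' : ℂ) * X : ℂ[X]) ≠ 0 := by
        intro h0
        have h3 := congrArg (Polynomial.eval 0) h0
        simp at h3
      have hs : s = (1 - C ((T'⁻¹ : ℝ) : ℂ) * X) * cpz v1 := by
        have h3 := hC.v
        rw [hv1, SF.H74.cpz_mul, hu, mul_assoc] at h3
        exact (mul_left_cancel₀ hlin0 h3).symm
      have hv1c : |v1.coeff 0| = 1 := by
        rw [hv1, mul_coeff_zero] at hv0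
        have h3 : (1 - C h * X + X ^ 2 : ℤ[X]).coeff 0 = 1 := by simp
        rw [h3, one_mul] at hv0
        exact hv0
      obtain ⟨V1, hV1⟩ : ∃ V1 : RO ℤ, V1 = LaurentPolynomial.T m * toLaurent v1 := ⟨_, rfl⟩
      have hCV : ClassV 1 V1 := by
        refine ⟨le_rfl, m, v1, hV1, norm_emb _ hv1c, ?_⟩
        intro z hz h0
        apply hC.zf z hz
        rw [hs, eval_mul]
        have h4 : (cpz v1).eval z = 0 := h0
        rw [h4, mul_zero]
      have hkh : ((sg * h : ℤ) : ℝ) = |T'| + |T'⁻¹| := by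
        push_cast
        rw [hh]
        rcases hsg with h3 | h3
        · subst h3
          have h4 : 0 < T' := by simpa using hsT
          rw [abs_of_pos h4, abs_of_pos (inv_pos.mpr h4)]
          push_cast
          ring
        · subst h3
          have h4 : T' < 0 := by
            push_cast at hsT
            linarith
          rw [abs_of_neg h4, abs_of_neg (inv_lt_zero.mpr h4)]
          push_cast
          ring
      have hX2 : 2 < |T'| + |T'⁻¹| := by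
        have h3 : 0 < |T'| := by linarith
        rw [abs_inv]
        have h4 : |T'| + |T'|⁻¹ - 2 = (|T'| - 1) ^ 2 / |T'| := by
          field_simp
          ring
        have h5 : 0 < (|T'| - 1) ^ 2 / |T'| := by
          apply div_pos _ h3
          have : 0 < |T'| - 1 := by linarith
          positivity
        linarith
      have hk2 : 2 ≤ sg * h := by
        have h3 : (2 : ℝ) < ((sg * h : ℤ) : ℝ) := by rw [hkh]; exact hX2
        have h4 : (2 : ℤ) < sg * h := by exact_mod_cast h3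
        omega
      refine case_w hEv hTpw hCzm hCzi hPmf hSnr hT hB hV hL hC hT2 hq (sg * h) sg hkh hk2 hsg
        hsT ?_
      intro p hp
      obtain ⟨p1, hp1⟩ : ∃ p1 : RO ℤ,
          p1 = -LaurentPolynomial.C sg * LaurentPolynomial.T (-1) * p := ⟨_, rfl⟩
      have hw : wgt (sg * h) sg * p = toLaurent (1 - C h * X + X ^ 2 : ℤ[X]) * p1 := by
        have hTT1 : (LaurentPolynomial.T 1 * LaurentPolynomial.T (-1) : RO ℤ) = 1 := by
          rw [← LaurentPolynomial.T_add]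
          simp
        have h3 : wgt (sg * h) sg = toLaurent (1 - C h * X + X ^ 2 : ℤ[X]) *
            (-LaurentPolynomial.C sg * LaurentPolynomial.T (-1)) := by
          unfold wgt
          simp only [map_add, map_sub, map_mul, map_one, Polynomial.toLaurent_C,
            Polynomial.toLaurent_X, map_pow]
          linear_combination (-(LaurentPolynomial.C sg * LaurentPolynomial.C h) +
            LaurentPolynomial.C sg * LaurentPolynomial.T 1) * hTT1
        rw [h3, hp1]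
        ring
      have hV0 : V0 = toLaurent (1 - C h * X + X ^ 2 : ℤ[X]) * V1 := by
        rw [hV, hV1, hv1, map_mul]
        ring
      rw [hw, hV0]
      apply mul_dvd_mul_left
      apply hDvc ℤ V1 p1 hCV
      refine ci_congrC hp ?_
      intro z
      have hu0 : evR z (toLaurent (1 - C h * X + X ^ 2 : ℤ[X]) : RO ℤ) ≠ 0 := by
        have h3 := evR_Tp z 0 (1 - C h * X + X ^ 2)
        rw [LaurentPolynomial.T_zero, one_mul, zpow_zero, one_mul] at h3
        rw [h3, hu, eval_mul]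
        simp only [eval_sub, eval_one, eval_mul, eval_C, eval_X]
        refine mul_ne_zero (lin_ne ?_) (lin_ne ?_)
        · rw [Circle.norm_coe, mul_one]
          exact h1.ne'
        · rw [Circle.norm_coe, mul_one, abs_inv]
          exact (inv_lt_one_of_one_lt₀ h1).ne
      rw [hw, hV0, hEv1, hEv1, hEv1, hEv1, map_mul, map_mul, mul_div_mul_left _ _ hu0]
    · -- case (3)
      refine case_one hEv hTpw hCzm hCzi hPmf hSnr hT hB hV hL hC hT2 hq h1 sg hsg hsT ?_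
      rw [hV]
      exact h2

/-- Row SF_NBZ. -/
theorem nbz (hEv : EvRS) (hDus : DusS) (hTpf : TpfS) (hTpw : TpwS) (hDic : DicS)
    (hDvc : DvcS) (hCza : CzaS) (hCzm : CzmS) (hCzi : CziS) (hPmf : PmfS) (hSnr : Nr.SnrS)
    (hLd : LdzS) : NbzS := by
  intro P L _ _ _ _ _ phi D S i0 eta h c n G θ m q f hF hθ hP hq hf hLD hb
  obtain ⟨b, fk, e, lam, hT, hrank⟩ := tp_data hDus hTpf hF hb
  obtain ⟨-, T, hTθ, hqT⟩ := hLd P L phi D S eta θ m q f hF.cc.dd hF.cc.two hF.cc.ray hP hq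
    hLD.q0 hf
  obtain ⟨T', s, W, hC⟩ := hCza q f hLD
  have hB : (res (Ker (co phi i0)) D).coeff 0 = LaurentPolynomial.T m * toLaurent q := by
    rw [← hq]
    exact res_coeff _ D 0
  have hV : D.coeff 0 + (eta : RO ℤ) * D.coeff S =
      LaurentPolynomial.T m * toLaurent (q + X * f) := by
    rw [hq, hf, ← mul_add, ← map_add]
  have h1 := nbz_main hEv hDvc hDic hTpw hCzm hCzi hPmf hSnr hT hB hV hLD hC
    (by rw [hTθ]; exact hθ) hqT
  have hX2 : 2 ≤ |T'| + |T'⁻¹| := by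
    have h3 : 0 < |T'| := by linarith [hC.one]
    rw [abs_inv]
    have h4 : |T'| + |T'|⁻¹ - 2 = (|T'| - 1) ^ 2 / |T'| := by
      field_simp
      ring
    have h5 : 0 ≤ (|T'| - 1) ^ 2 / |T'| := by positivity
    linarith
  have h2 : (Module.finrank ℤ L : ℝ) ≤
      1 + (rk (supp (res (Ker (co phi i0)) D) ∪ Set.range b) : ℝ) := by
    exact_mod_cast hrank
  rw [hTθ] at h1
  linarith

end Pool.Agent.B5.H38n
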