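import Pool.Agent.Lib.MP_b5021c_nt.SF.H38.Nbz
import Pool.Agent.Lib.MP_b5021c_nt.SF.H27.Bas
import Pool.Agent.Lib.MP_b5021c_nt.SF.H76.QsgB

/-!
# Board b5, chapter SF: all factors are small, any `θ`, no quadratic factor (for chapter B3)
-/

namespace Pool.Agent.B5

open scoped LaurentPolynomial
open Polynomial

/-- All factors are small, the zero `1/T'` of `q + X f` is in the open disc and is not a quadratic
unit with integral trace: the rank is at most two (any `θ`). -/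
def NbyS : Prop := ∀ (P L : Type) [Fintype P] [DecidableEq P] [AddCommGroup L]
  [Module.Free ℤ L] [Module.Finite ℤ L] (phi : L →+ (P → ℤ)) (D : AO ℤ L) (S : L) (i0 : P)
  (eta : (RO ℤ)ˣ) (h : co phi i0 S = 1) (c : RO ℤ) (n : ℕ)
  (G : Fin n → AO ℤ (Ker (co phi i0))) (θ : ℝ) (m : ℤ) (q f : ℤ[X]) (T' : ℝ) (s W : ℂ[X]),
    FD phi D S i0 eta h c n G → ClassP θ (D.coeff 0) →
    D.coeff 0 = LaurentPolynomial.T m * toLaurent q →
    (eta : RO ℤ) * D.coeff S = LaurentPolynomial.T m * toLaurent (X * f) → LDz q f →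
    |f.coeff 0| ≤ 1 → C1D q f T' s W → 1 < |T'| → (¬ ∃ h : ℤ, (h : ℝ) = T' + T'⁻¹) →
    (∀ i, ¬ 1 < M ((G i).coeff 0)) → Module.finrank ℤ L ≤ 2

end Pool.Agent.B5

namespace Pool.Agent.B5.H38n

open scoped LaurentPolynomial Topology
open Polynomial
open Pool.Agent.B5

theorem npos_nnT (hSh : SharpS) {L : Type} [AddCommGroup L] [Module.Free ℤ L]
    [Module.Finite ℤ L] (F : AO ℤ L) (hF : Npos F) :
    NnT F := by
  intro z u
  refine ⟨?_, hF.2 z u⟩
  have h1 := (hSh ℤ L F).1 z u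
  rw [hF.1] at h1
  exact Complex.conj_eq_iff_im.mp h1.symm

theorem nby (hEv : EvRS) (hSh : SharpS) (hDe : DensS) (hZ : ZfinS) (hDus : DusS) (hTpf : TpfS)
    (hTpw : TpwS) (hDic : DicS) (hTza : TzaS) (hFjt : FjtS) (hNr : Nr3S) (hNn : Nn3S)
    (hTa : Ta3S) (hCzi : CziS) (hLd : LdzS) : NbyS := by
  intro P L _ _ _ _ _ phi D S i0 eta h c n G θ m q f T' s W hF hP hq hf hLD hf1 hC hT1 hno hb
  obtain ⟨hEv1, -, -, -⟩ := hEv ℤ
  obtain ⟨b, fk, e, lam, hT, hrank⟩ := tp_data hDus hTpf hF hb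
  obtain ⟨-, T, hTθ, hqT⟩ := hLd P L phi D S eta θ m q f hF.cc.dd hF.cc.two hF.cc.ray hP hq
    hLD.q0 hf
  obtain ⟨B, hBd⟩ : ∃ B, B = res (Ker (co phi i0)) D := ⟨_, rfl⟩
  obtain ⟨V0, hVd⟩ : ∃ V0, V0 = D.coeff 0 + (eta : RO ℤ) * D.coeff S := ⟨_, rfl⟩
  rw [← hBd, ← hVd] at hT
  rw [← hBd] at hrank
  have hB : B.coeff 0 = LaurentPolynomial.T m * toLaurent q := by
    rw [← hq, hBd]
    exact res_coeff _ D 0
  have hV : V0 = LaurentPolynomial.T m * toLaurent (q + X * f) := by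
    rw [hVd, hq, hf, ← mul_add, ← map_add]
  have hT2 : 1 < |T| := by rw [hTθ]; exact hP.1
  have hv0 : |(q + X * f).coeff 0| = 1 := by
    rw [coeff_add, mul_coeff_zero, coeff_X_zero, zero_mul, add_zero]
    exact hLD.q0
  have hdiv : ∀ p p' : RO ℤ, p * rsh V0 = rsh p' * V0 → CircleIntegrable
      (fun z => evL z p / evL z V0) 0 1 → V0 ∣ p := by
    rcases hDic (q + X * f) m T' s hv0 hT1 hC.v hC.zf with ⟨h, hh, -⟩ | h2
    · exact absurd ⟨h, hh⟩ hno
    · rw [hV]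
      exact h2
  have hn1 : NnR (1 : RO ℤ) := by
    intro z
    rw [map_one]
    simp
  have hint : CircleIntegrable (fun z => (evL z (1 * B.coeff 0) / evL z V0).re) 0 1 := by
    have h1 := (hCzi q f T' s W hLD hC).2 hT1
    refine ci_congr h1 ?_
    intro z
    have hz0 : (z : ℂ) ^ m ≠ 0 := zpow_ne_zero _ (by
      intro h0
      have := Circle.norm_coe z
      rw [h0, norm_zero] at this
      norm_num at this)
    rw [hEv1, hEv1, one_mul, hB, hV, evR_Tp, evR_Tp, mul_div_mul_left _ _ hz0]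
  obtain ⟨Ti, hT0, hTn, hsum, hrk⟩ := hTpw _ 1 lam B V0 1 n b fk e hT one_ne_zero
    hn1 (fun p p' h1 hi => by rw [one_mul] at hi ⊢; exact hdiv p p' h1 hi) hint
  have hTt : ∀ i, NnT (Ti i) := fun i => npos_nnT hSh (Ti i) (hTn i)
  have hnn : ∀ i ∈ (Finset.univ : Finset (Fin n)), NnR ((Ti i).coeff 0) := fun i _ =>
    H76.nnR_of_nnT hDe hSh hEv hNn (Ti i) (hTt i)
  have hne : ∀ i, (Ti i).coeff 0 ≠ 0 := fun i => H76.t_ne hZ hNn (Ti i) (hTt i) (hT0 i)
  have hint2 : ∀ i, 1 ≤ ((Ti i).coeff 0).coeff 0 ∧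
      |((Ti i).coeff 0).coeff 1| ≤ ((Ti i).coeff 0).coeff 0 - 1 := fun i =>
    SFH27.nr_int hNr (hne i) (hnn i (Finset.mem_univ i))
  rcases Nat.eq_zero_or_pos n with hn0 | hn0
  · subst hn0
    rw [Finset.univ_eq_empty, Finset.sum_empty] at hrk
    exact (hrank.trans (Nat.add_le_add_left hrk 1)).trans (by norm_num)
  obtain ⟨t, ht⟩ : ∃ t : RO ℤ, t = ∑ i, (Ti i).coeff 0 := ⟨_, rfl⟩
  have ht0 : t.coeff 0 = ∑ i, ((Ti i).coeff 0).coeff 0 := by
    rw [ht, SFH27.sum_coeff]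
  have ht1 : t.coeff 1 = ∑ i, ((Ti i).coeff 0).coeff 1 := by
    rw [ht, SFH27.sum_coeff]
  have hcard : (n : ℤ) ≤ t.coeff 0 := by
    rw [ht0]
    calc (n : ℤ) = ∑ _i : Fin n, (1 : ℤ) := by simp
      _ ≤ _ := Finset.sum_le_sum fun i _ => (hint2 i).1
  have habs : |t.coeff 1| ≤ t.coeff 0 - n := by
    rw [ht1, ht0]
    calc |∑ i, ((Ti i).coeff 0).coeff 1| ≤ ∑ i, |((Ti i).coeff 0).coeff 1| :=
          Finset.abs_sum_le_sum_abs _ _
      _ ≤ ∑ i, (((Ti i).coeff 0).coeff 0 - 1) := Finset.sum_le_sum fun i _ => (hint2 i).2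
      _ = _ := by rw [Finset.sum_sub_distrib]; simp
  have htne : t ≠ 0 := by
    intro h0
    rw [h0] at hcard
    have h1 : (0 : RO ℤ).coeff 0 = 0 := rfl
    rw [h1] at hcard
    omega
  have htnn : NnR t := by
    rw [ht]
    exact SFH27.sum_nnR _ _ hnn
  have hmass : Mass t q f := by
    intro z
    by_cases hv : (cpz (q + X * f)).eval (z : ℂ) = 0
    · rw [hv]
      simp
    · have hv1 : evR z V0 ≠ 0 := by
        rw [hV, evR_Tp]
        exact mul_ne_zero (zpow_ne_zero _ (by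
          intro h0
          have := Circle.norm_coe z
          rw [h0, norm_zero] at this
          norm_num at this)) hv
      have h2 := mass_eq hB hV hn1 z hv (hsum z hv1)
      rw [map_one, Complex.one_re, one_mul, ← ht] at h2
      exact h2.le
  -- one factor
  have hkey : n = 1 ∧ ∀ i, rk (supp (Ti i)) = 0 := by
    have hcst : ∀ (i : Fin n) (x : RO ℤ), Ti i = cst x → rk (supp (Ti i)) = 0 := by
      intro i x hx
      have h1 : supp (Ti i) ⊆ {0} := by
        rw [hx]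
        exact H56.supp_cst_sub x
      unfold rk
      have h2 : Submodule.span ℤ (supp (Ti i)) = ⊥ := by
        rw [Submodule.span_eq_bot]
        intro y hy
        exact h1 hy
      rw [h2, finrank_bot]
    rcases hTza t q f T T' s W hLD hC hT2 hqT hT1 hf1 htne htnn hmass with h1 | ⟨-, h2, -, sg,
      hsg, -, h3⟩
    · have h4 : t.coeff 0 = 1 := by
        rw [h1, AddMonoidAlgebra.one_def, AddMonoidAlgebra.coeff_single, Finsupp.single_eq_same]
      have hn1' : n = 1 := by omega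
      refine ⟨hn1', ?_⟩
      intro i
      subst hn1'
      obtain rfl : i = 0 := Subsingleton.elim i 0
      have h5 : (Ti 0).coeff 0 = 1 := by
        rw [← h1, ht, Fin.sum_univ_one]
      exact hcst 0 1 (hTa ℤ _ (Ti 0) (hTt 0) h5)
    · have hn1' : n = 1 := by
        have h4 : |t.coeff 1| = t.coeff 0 - 1 := by
          rw [h3, abs_mul, abs_of_nonneg (by omega : (0 : ℤ) ≤ t.coeff 0 - 1)]
          rcases hsg with h5 | h5 <;> subst h5 <;> simp
        omega
      refine ⟨hn1', ?_⟩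
      intro i
      subst hn1'
      obtain rfl : i = 0 := Subsingleton.elim i 0
      have h5 : (Ti 0).coeff 0 = t := by
        rw [ht, Fin.sum_univ_one]
      obtain ⟨k, hk⟩ : ∃ k : ℕ, (k : ℤ) = t.coeff 0 := ⟨(t.coeff 0).toNat, by omega⟩
      exact hcst 0 _ (hFjt _ (Ti 0) k sg (hTt 0) (by omega) hsg (by rw [h5]; exact hk.symm)
        (by rw [h5, h3, hk]))
  obtain ⟨hn1', hk⟩ := hkey
  subst hn1'
  rw [Fin.sum_univ_one, hk 0] at hrk
  exact (hrank.trans (Nat.add_le_add_left hrk 1)).trans (by norm_num)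

end Pool.Agent.B5.H38n
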