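import Pool.Agent.Lib.MP_b5021c_nt.IfaceSF
import Pool.Agent.Lib.MP_b5021c_nt.E1.H80.Iface
import Pool.Agent.Lib.MP_b5021c_nt.B.H36.Evr
import Pool.Agent.Lib.MP_b5021c_nt.E2.H65.Tro

/-!
# Board b5, chapter SF, row SF_NBZ, first part: weights and the Poisson inequality
-/

namespace Pool.Agent.B5.H38n

open scoped LaurentPolynomial Topology
open Polynomial
open Pool.Agent.B5

/-! ## Values -/

theorem evR_Tp (z : Circle) (n : ℤ) (p : ℤ[X]) :
    evR z (LaurentPolynomial.T n * toLaurent p : RO ℤ) = (z : ℂ) ^ n * (cpz p).eval (z : ℂ) := by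
  rw [map_mul]
  congr 1
  · rw [evR, LaurentPolynomial.eval₂_T]
    simp
  · rw [evR, LaurentPolynomial.eval₂_toLaurent, cpz, Polynomial.eval_map]
    rfl

theorem evR_T' (z : Circle) (n : ℤ) : evR z (LaurentPolynomial.T n : RO ℤ) = (z : ℂ) ^ n := by
  rw [evR, LaurentPolynomial.eval₂_T]
  simp

theorem evR_C' (z : Circle) (k : ℤ) : evR z (LaurentPolynomial.C k : RO ℤ) = (k : ℂ) := by
  have h := H36.evR_CT (O := ℤ) z k 0
  rw [LaurentPolynomial.T_zero, mul_one, zpow_zero, mul_one] at h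
  rw [h]
  exact eq_intCast _ k

theorem conj_circle (z : Circle) : ((z : ℂ))⁻¹ = (starRingEnd ℂ) (z : ℂ) := by
  rw [← Circle.coe_inv_eq_conj, Circle.coe_inv]

/-- The weight `k - sg (T + T⁻¹)`. -/
noncomputable def wgt (k sg : ℤ) : RO ℤ :=
  LaurentPolynomial.C k -
    LaurentPolynomial.C sg * (LaurentPolynomial.T 1 + LaurentPolynomial.T (-1))

theorem evR_wgt (z : Circle) (k sg : ℤ) :
    evR z (wgt k sg) = (((k : ℝ) - 2 * sg * (z : ℂ).re : ℝ) : ℂ) := by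
  unfold wgt
  rw [map_sub, map_mul, map_add, evR_C', evR_C', evR_T', evR_T', zpow_one, zpow_neg, zpow_one,
    conj_circle, Complex.add_conj]
  push_cast
  ring

theorem re_circle (z : Circle) : |(z : ℂ).re| ≤ 1 := by
  have h := Complex.abs_re_le_norm (z : ℂ)
  rwa [Circle.norm_coe] at h

theorem wgt_nn (k sg : ℤ) (hk : 2 ≤ k) (hs : sg = 1 ∨ sg = -1) : NnR (wgt k sg) := by
  intro z
  rw [evR_wgt]
  refine ⟨Complex.ofReal_im _, ?_⟩
  rw [Complex.ofReal_re]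
  obtain ⟨h1, h2⟩ := abs_le.mp (re_circle z)
  have hk' : (2 : ℝ) ≤ k := by exact_mod_cast hk
  rcases hs with h | h <;> subst h <;> push_cast <;> linarith

theorem wgt_ne (k sg : ℤ) (hs : sg = 1 ∨ sg = -1) : wgt k sg ≠ 0 := by
  intro h
  have h1 := evR_wgt 1 k sg
  have h2 := evR_wgt (-1) k sg
  rw [h, map_zero] at h1 h2
  have h3 : (k : ℝ) - 2 * sg * ((1 : Circle) : ℂ).re = 0 := by exact_mod_cast h1.symm
  have h4 : (k : ℝ) - 2 * sg * ((-1 : Circle) : ℂ).re = 0 := by exact_mod_cast h2.symm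
  simp at h3 h4
  have h5 : (sg : ℝ) = 0 := by linarith
  have h6 : sg = 0 := by exact_mod_cast h5
  rcases hs with h | h <;> omega

theorem rsh_wgt (k sg : ℤ) : rsh (wgt k sg) = wgt k sg := by
  unfold wgt
  have hT : ∀ n : ℤ, rsh (LaurentPolynomial.T n : RO ℤ) = LaurentPolynomial.T (-n) := by
    intro n
    have h := H36.rsh_single (O := ℤ) n 1
    rw [map_one] at h
    exact h
  have hC : ∀ n : ℤ, rsh (LaurentPolynomial.C n : RO ℤ) = LaurentPolynomial.C n := by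
    intro n
    have h := H36.rsh_single (O := ℤ) 0 n
    rw [neg_zero] at h
    exact h
  rw [map_sub, map_mul, map_add, hT, hT, hC, hC, neg_neg]
  ring

/-- `|T'| |z - a'|²` on the circle. -/
theorem wt_val (z : Circle) (T' sg : ℝ) (hs : |sg| = 1) (hT : 0 < sg * T') :
    |T'| * ‖(z : ℂ) - ((T'⁻¹ : ℝ) : ℂ)‖ ^ 2 = |T'| + |T'⁻¹| - 2 * sg * (z : ℂ).re := by
  have hz : (z : ℂ).re ^ 2 + (z : ℂ).im ^ 2 = 1 := by
    have := Complex.sq_norm (z : ℂ)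
    rw [Circle.norm_coe, Complex.normSq_apply] at this
    nlinarith
  have h1 : ‖(z : ℂ) - ((T'⁻¹ : ℝ) : ℂ)‖ ^ 2 = 1 - 2 * T'⁻¹ * (z : ℂ).re + T'⁻¹ ^ 2 := by
    rw [Complex.sq_norm, Complex.normSq_apply]
    simp only [Complex.sub_re, Complex.sub_im, Complex.ofReal_re, Complex.ofReal_im, sub_zero]
    nlinarith
  rw [h1]
  have hT0 : T' ≠ 0 := by
    rintro rfl
    simp at hT
  rcases lt_or_gt_of_ne hT0 with h | h
  · have h2 : sg < 0 := by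
      by_contra hc
      push Not at hc
      nlinarith
    rw [abs_of_neg h2] at hs
    have h3 : sg = -1 := by linarith
    rw [abs_of_neg h, abs_of_neg (inv_lt_zero.mpr h), h3]
    field_simp
    ring
  · have h2 : 0 < sg := by
      by_contra hc
      push Not at hc
      nlinarith
    rw [abs_of_pos h2] at hs
    rw [abs_of_pos h, abs_of_pos (inv_pos.mpr h), hs]
    field_simp
    ring

/-! ## The Poisson inequality -/

/-- The two inequalities of CZM for a sum of integral masses. -/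
theorem core (hCzm : CzmS) (hPmf : PmfS) {q f : ℤ[X]} {T T' : ℝ} {s W : ℂ[X]} (hL : LDz q f)
    (hC : C1D q f T' s W) (hT : 1 < |T|) (hq : (cpz q).eval ((T⁻¹ : ℝ) : ℂ) = 0) (p0 p1 : RO ℤ)
    (h0 : rsh p0 = p0) (h1 : rsh p1 = p1) (c : ℝ)
    (hm : ∀ z : Circle, (cpz (q + X * f)).eval (z : ℂ) ≠ 0 →
      ((evR z p1).re + c * (evR z p0).re) * ‖(cpz (q + X * f)).eval (z : ℂ)‖ ^ 2 ≤
        |T'| * ‖(z : ℂ) - ((T'⁻¹ : ℝ) : ℂ)‖ ^ 2 *
          ((cpz (q - X * f)).eval (z : ℂ) *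
            (starRingEnd ℂ) ((cpz (q + X * f)).eval (z : ℂ))).re) :
    pmn ((T⁻¹ : ℝ) : ℂ) p1 + c * pmn ((T⁻¹ : ℝ) : ℂ) p0 ≤ 2 * |T| - (|T'| + |T'⁻¹|) := by
  have hTi : |T⁻¹| < 1 := by
    rw [abs_inv]
    exact inv_lt_one_of_one_lt₀ hT
  have ha : ‖((T⁻¹ : ℝ) : ℂ)‖ < 1 := by
    rw [Complex.norm_real, Real.norm_eq_abs]
    exact hTi
  obtain ⟨r0, -, hr0, hp0, -⟩ := hPmf ℤ p0 _ ha h0
  obtain ⟨r1, -, hr1, hp1, -⟩ := hPmf ℤ p1 _ ha h1
  have hT'0 : 0 < |T'| := by linarith [hC.one]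
  have hT'n : T' ≠ 0 := abs_pos.mp hT'0
  obtain ⟨r, hr⟩ : ∃ r : ℂ[X], r = C ((|T'|⁻¹ : ℝ) : ℂ) * (r1 + C ((c : ℝ) : ℂ) * r0) := ⟨_, rfl⟩
  have hre : ∀ z : ℂ, (r.eval z).re = |T'|⁻¹ * ((r1.eval z).re + c * (r0.eval z).re) := by
    intro z
    rw [hr, eval_mul, eval_C, eval_add, eval_mul, eval_C, Complex.re_ofReal_mul, Complex.add_re,
      Complex.re_ofReal_mul]
  obtain ⟨hi, hii⟩ := hCzm q f T T' s W r hL hC hT hq (by
    intro z hz
    obtain ⟨zc, hzc⟩ : ∃ zc : Circle, (zc : ℂ) = z :=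
      ⟨⟨z, by simpa [Submonoid.unitSphere] using hz⟩, rfl⟩
    subst hzc
    by_cases hv : (cpz (q + X * f)).eval (zc : ℂ) = 0
    · rw [hv]
      simp
    · have h2 := hm zc hv
      rw [hr0, hr1] at h2
      rw [hre]
      have h3 : |T'|⁻¹ * ((r1.eval (zc : ℂ)).re + c * (r0.eval (zc : ℂ)).re) *
          ‖(cpz (q + X * f)).eval (zc : ℂ)‖ ^ 2 = |T'|⁻¹ * (((r1.eval (zc : ℂ)).re +
          c * (r0.eval (zc : ℂ)).re) * ‖(cpz (q + X * f)).eval (zc : ℂ)‖ ^ 2) := by ring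
      rw [h3]
      calc |T'|⁻¹ * (((r1.eval (zc : ℂ)).re +
          c * (r0.eval (zc : ℂ)).re) * ‖(cpz (q + X * f)).eval (zc : ℂ)‖ ^ 2)
          ≤ |T'|⁻¹ * (|T'| * ‖(zc : ℂ) - ((T'⁻¹ : ℝ) : ℂ)‖ ^ 2 *
          ((cpz (q - X * f)).eval (zc : ℂ) *
            (starRingEnd ℂ) ((cpz (q + X * f)).eval (zc : ℂ))).re) :=
            mul_le_mul_of_nonneg_left h2 (by positivity)
        _ = _ := by
            field_simp)
  have h5 : 0 ≤ (1 - |T⁻¹|) / (1 + |T⁻¹|) := div_nonneg (by linarith) (by positivity)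
  have h6 : (r.eval ((T⁻¹ : ℝ) : ℂ)).re ≤ 2 * T'⁻¹ * T - 1 - T'⁻¹ ^ 2 := by
    have h7 := mul_nonneg h5 (sub_nonneg.mpr hi)
    linarith
  rw [hre, ← hp1, ← hp0] at h6
  have h7 : pmn ((T⁻¹ : ℝ) : ℂ) p1 + c * pmn ((T⁻¹ : ℝ) : ℂ) p0 ≤
      |T'| * (2 * T'⁻¹ * T - 1 - T'⁻¹ ^ 2) := by
    have h8 := mul_le_mul_of_nonneg_left h6 hT'0.le
    rwa [mul_inv_cancel_left₀ hT'0.ne'] at h8
  refine h7.trans ?_
  have h9 : T ≤ |T| := le_abs_self T
  have h10 : -T ≤ |T| := neg_le_abs T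
  rcases lt_or_gt_of_ne hT'n with h | h
  · rw [abs_of_neg h, abs_of_neg (inv_lt_zero.mpr h)]
    have h11 : -T' * (2 * T'⁻¹ * T - 1 - T'⁻¹ ^ 2) = -2 * T + T' + T'⁻¹ := by
      field_simp
      ring
    rw [h11]
    linarith
  · rw [abs_of_pos h, abs_of_pos (inv_pos.mpr h)]
    have h11 : T' * (2 * T'⁻¹ * T - 1 - T'⁻¹ ^ 2) = 2 * T - T' - T'⁻¹ := by
      field_simp
    rw [h11]
    linarith

/-- The sum of the ranks is at most the Poisson mean of the masses. -/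
theorem sum_le (hEv1 : ∀ (z : Circle) (p : RO ℤ), evL (z : ℂ) p = evR z p) (hSnr : Nr.SnrS)
    {L : Type} [AddCommGroup L] [Module.Free ℤ L] [Module.Finite ℤ L] {n : ℕ}
    {f : Fin n → (L →+ ℤ)} (T : ∀ i, AO ℤ (Ker (f i))) (hT0 : ∀ i, T i ≠ 0)
    (hTn : ∀ i, Npos (T i)) (a : ℝ) (ha : |a| ≤ 1 / 2) :
    ((∑ i, (1 + rk (supp (T i))) : ℕ) : ℝ) ≤ pmn (a : ℂ) (∑ i, (T i).coeff 0) := by
  have hna : ‖(a : ℂ)‖ < 1 := by
    rw [Complex.norm_real, Real.norm_eq_abs]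
    linarith
  rw [H65.pmn_sum hEv1 _ hna]
  push_cast
  exact Finset.sum_le_sum fun i _ => (hSnr (Ker (f i)) (T i) a ha (hT0 i) (hTn i)).1

theorem rsh_sum {L : Type} [AddCommGroup L] {n : ℕ}
    {f : Fin n → (L →+ ℤ)} (T : ∀ i, AO ℤ (Ker (f i)))
    (hTn : ∀ i, Npos (T i)) : rsh (∑ i, (T i).coeff 0) = ∑ i, (T i).coeff 0 := by
  rw [map_sum]
  exact Finset.sum_congr rfl fun i _ => H65.rsh_coeff0 (T i) (hTn i).1

/-- The masses in terms of `q`, `f`. -/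
theorem mass_eq {q f : ℤ[X]} {m : ℤ} {Wt Sm D0 V0 : RO ℤ} (hD : D0 = LaurentPolynomial.T m *
    toLaurent q) (hV : V0 = LaurentPolynomial.T m * toLaurent (q + X * f)) (hW : NnR Wt)
    (z : Circle) (hv : (cpz (q + X * f)).eval (z : ℂ) ≠ 0)
    (h : (evR z Sm).re + (1 : ℕ) * (evR z Wt).re = 2 * (evR z (Wt * D0) / evR z V0).re) :
    (evR z Sm).re * ‖(cpz (q + X * f)).eval (z : ℂ)‖ ^ 2 =
      (evR z Wt).re * ((cpz (q - X * f)).eval (z : ℂ) *
            (starRingEnd ℂ) ((cpz (q + X * f)).eval (z : ℂ))).re := by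
  have hz0 : (z : ℂ) ^ m ≠ 0 := zpow_ne_zero _ (by
    intro h0
    have := Circle.norm_coe z
    rw [h0, norm_zero] at this
    norm_num at this)
  have h1 : evR z (Wt * D0) / evR z V0 =
      ((evR z Wt).re : ℂ) * ((cpz q).eval (z : ℂ) / (cpz (q + X * f)).eval (z : ℂ)) := by
    have hw : evR z Wt = ((evR z Wt).re : ℂ) := Complex.ext rfl (by
      rw [Complex.ofReal_im]; exact (hW z).1)
    rw [map_mul, hD, hV, evR_Tp, evR_Tp, ← hw]
    field_simp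
  rw [h1, Complex.re_ofReal_mul] at h
  have h2 : ((cpz q).eval (z : ℂ) / (cpz (q + X * f)).eval (z : ℂ)).re *
      ‖(cpz (q + X * f)).eval (z : ℂ)‖ ^ 2 =
      ((cpz q).eval (z : ℂ) * (starRingEnd ℂ) ((cpz (q + X * f)).eval (z : ℂ))).re := by
    have h3 : (cpz q).eval (z : ℂ) * (starRingEnd ℂ) ((cpz (q + X * f)).eval (z : ℂ)) =
        ((cpz q).eval (z : ℂ) / (cpz (q + X * f)).eval (z : ℂ)) *
        ((‖(cpz (q + X * f)).eval (z : ℂ)‖ ^ 2 : ℝ) : ℂ) := by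
      rw [← Complex.normSq_eq_norm_sq, ← Complex.mul_conj]
      field_simp
    rw [h3, Complex.re_mul_ofReal]
  have h4 : (cpz (q - X * f)).eval (z : ℂ) * (starRingEnd ℂ) ((cpz (q + X * f)).eval (z : ℂ)) =
      2 * ((cpz q).eval (z : ℂ) * (starRingEnd ℂ) ((cpz (q + X * f)).eval (z : ℂ))) -
      ((‖(cpz (q + X * f)).eval (z : ℂ)‖ ^ 2 : ℝ) : ℂ) := by
    have h5 : (cpz (q - X * f)).eval (z : ℂ) =
        2 * (cpz q).eval (z : ℂ) - (cpz (q + X * f)).eval (z : ℂ) := by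
      simp only [cpz, Polynomial.map_sub, Polynomial.map_add, eval_sub, eval_add]
      ring
    rw [h5, ← Complex.normSq_eq_norm_sq, ← Complex.mul_conj]
    ring
  have h5 : ((cpz (q - X * f)).eval (z : ℂ) *
      (starRingEnd ℂ) ((cpz (q + X * f)).eval (z : ℂ))).re =
      2 * ((cpz q).eval (z : ℂ) * (starRingEnd ℂ) ((cpz (q + X * f)).eval (z : ℂ))).re -
      ‖(cpz (q + X * f)).eval (z : ℂ)‖ ^ 2 := by
    rw [h4, Complex.sub_re, Complex.ofReal_re]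
    congr 1
    simp
  rw [h5, ← h2]
  push_cast at h
  have h6 : (evR z Sm).re = 2 * ((evR z Wt).re *
      ((cpz q).eval (z : ℂ) / (cpz (q + X * f)).eval (z : ℂ)).re) - (evR z Wt).re := by linarith
  rw [h6]
  ring

end Pool.Agent.B5.H38n
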